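import Mathlib
import Pool.Agent.TH66.SG.Odd

set_option autoImplicit false

namespace Pool.Agent.Results.MP_79499b_co.OddDimensionAllGroups

open Filter Topology

/-- Some finite group `G` (not assumed abelian) of order `(n ^ m - 1) / (n - 1)` contains a
difference set `D` with the Singer parameters:
`k = (n ^ (m - 1) - 1) / (n - 1)`, `lambda = (n ^ (m - 2) - 1) / (n - 1)`. -/
def HasSingerDifferenceSet (n m : ℕ) : Prop :=
  ∃ (G : Type) (_ : Group G) (_ : Fintype G) (_ : DecidableEq G) (D : Finset G),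
    Fintype.card G * (n - 1) = n ^ m - 1 ∧ D.card * (n - 1) = n ^ (m - 1) - 1 ∧
    ∀ g : G, g ≠ 1 →
      ((D ×ˢ D).filter (fun p : G × G => p.1 * p.2⁻¹ = g)).card * (n - 1) = n ^ (m - 2) - 1

/-- Let `m ≥ 3` be odd, `A ≥ 2` and `F ≥ 1`, where `F` is odd or `A` is not a square (so that
`n = A * q ^ F` is not a square). Then for almost all primes `q` (all but `o(π(N))` of the primes
`q ≤ N`) no finite group at all contains a difference set with the Singer parameters of
`(A * q ^ F, m)`. -/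
theorem result (m A F : ℕ) (hm : Odd m) (hm3 : 3 ≤ m) (hA : 2 ≤ A) (hF : 1 ≤ F)
    (h : Odd F ∨ ¬ IsSquare A) :
    Tendsto (fun N : ℕ =>
      ({q : ℕ | q ≤ N ∧ q.Prime ∧ HasSingerDifferenceSet (A * q ^ F) m}.ncard : ℝ) /
        (Nat.primeCounting N : ℝ)) atTop (𝓝 0) :=
  Pool.Agent.TH66.SG.odd_main hm hm3 hA hF h

end Pool.Agent.Results.MP_79499b_co.OddDimensionAllGroups
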